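import Mathlib
import Pool.Agent.Run7.h196.Vis.Main

set_option autoImplicit false

/-!
# The number of visibility graphs of simple polygons: `log₂ N(n) = Θ(n log n)`
-/

namespace Pool.Agent.Results.MP_af711c_co.GrowthRate

open Filter Asymptotics

/-- The `i`-th edge of the closed polygonal curve through `v 0, v 1, …, v (n - 1)`: the segment
from `v i` to the cyclically next vertex. -/
def edge {n : ℕ} (v : Fin n → ℝ × ℝ) (i : Fin n) : Set (ℝ × ℝ) :=
  segment ℝ (v i) (v (finRotate n i))

/-- `P` is a simple polygon in the plane with the `n` vertices `v 0, …, v (n - 1)` in boundary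
order: the closed region bounded by the closed polygonal curve through these vertices, which has
no self-intersections. -/
structure IsSimplePolygon {n : ℕ} (v : Fin n → ℝ × ℝ) (P : Set (ℝ × ℝ)) : Prop where
  /-- there are at least three vertices -/
  three_le : 3 ≤ n
  /-- the vertices are distinct -/
  injective : Function.Injective v
  /-- two different edges meet at most in a common endpoint -/
  simple : ∀ i j, i ≠ j →
    edge v i ∩ edge v j ⊆ {v i, v (finRotate n i)} ∩ {v j, v (finRotate n j)}
  /-- the region is compact -/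
  compact : IsCompact P
  /-- the region is the closure of its interior -/
  regular : closure (interior P) = P
  /-- the region is bounded by the polygonal curve -/
  boundary : frontier P = ⋃ i, edge v i

/-- The visibility graph: two vertices are adjacent iff the closed segment joining them is
contained in the polygon (boundary included). -/
def visGraph {n : ℕ} (v : Fin n → ℝ × ℝ) (P : Set (ℝ × ℝ)) : SimpleGraph (Fin n) where
  Adj i j := i ≠ j ∧ segment ℝ (v i) (v j) ⊆ P
  symm := ⟨fun i j h => ⟨h.1.symm, by rw [segment_symm]; exact h.2⟩⟩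
  loopless := ⟨fun i h => h.1 rfl⟩

/-- Isomorphism of graphs on `Fin n`. -/
def isoSetoid (n : ℕ) : Setoid (SimpleGraph (Fin n)) where
  r G H := Nonempty (G ≃g H)
  iseqv := ⟨fun _ => ⟨SimpleGraph.Iso.refl⟩, fun ⟨e⟩ => ⟨e.symm⟩, fun ⟨e⟩ ⟨f⟩ => ⟨e.trans f⟩⟩

/-- `N n`: the number of isomorphism classes of visibility graphs of simple polygons with `n`
vertices (straight angles at vertices allowed). -/
noncomputable def N (n : ℕ) : ℕ :=
  {q : Quotient (isoSetoid n) | ∃ (v : Fin n → ℝ × ℝ) (P : Set (ℝ × ℝ)), IsSimplePolygon v P ∧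
    q = Quotient.mk (isoSetoid n) (visGraph v P)}.ncard

/-- No vertex has a straight angle: no three consecutive vertices are collinear. -/
def NoStraightAngle {n : ℕ} (v : Fin n → ℝ × ℝ) : Prop :=
  ∀ i, ¬ Collinear ℝ {v i, v (finRotate n i), v (finRotate n (finRotate n i))}

/-- `N' n`: the number of isomorphism classes of visibility graphs of simple polygons with `n`
vertices, without straight angles. -/
noncomputable def N' (n : ℕ) : ℕ :=
  {q : Quotient (isoSetoid n) | ∃ (v : Fin n → ℝ × ℝ) (P : Set (ℝ × ℝ)), IsSimplePolygon v P ∧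
    NoStraightAngle v ∧ q = Quotient.mk (isoSetoid n) (visGraph v P)}.ncard

theorem simple_iff {n : ℕ} (v : Fin n → ℝ × ℝ) (P : Set (ℝ × ℝ)) :
    IsSimplePolygon v P ↔ Vis124.IsSimplePolygon v P :=
  ⟨fun h => ⟨h.1, h.2, h.3, h.4, h.5, h.6⟩, fun h => ⟨h.1, h.2, h.3, h.4, h.5, h.6⟩⟩

theorem N_eq (n : ℕ) : N n = Vis124.N n := by
  unfold N
  simp only [simple_iff]
  rfl

theorem N'_eq (n : ℕ) : N' n = Run7.h196.Vis.NS n := by
  unfold N'
  simp only [simple_iff]
  rfl

theorem result :
    ((fun n : ℕ => Real.logb 2 (N n)) =Θ[atTop] fun n : ℕ => (n : ℝ) * Real.log n) ∧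
      ((fun n : ℕ => Real.logb 2 (N' n)) =Θ[atTop] fun n : ℕ => (n : ℝ) * Real.log n) := by
  simp only [N_eq, N'_eq]
  constructor
  · apply Run7.h196.Vis.theta_of_bounds
    · exact fun n k h => (Run7.h196.Vis.lower h).trans (Run7.h196.Vis.NS_le_N n)
    · exact Run7.h196.Vis.N_le
  · apply Run7.h196.Vis.theta_of_bounds
    · exact fun n k h => Run7.h196.Vis.lower h
    · exact fun n => (Run7.h196.Vis.NS_le_N n).trans (Run7.h196.Vis.N_le n)

end Pool.Agent.Results.MP_af711c_co.GrowthRate
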